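import Mathlib
import Pool.Agent.H925R3.DC.Stubs

/-! REPN (helper196): some monomial is a unit mod `p`. -/

namespace Pool.Agent.H196R2.DC

open Finset Pool.Agent.H925R3.DC

theorem repn : Pool.Agent.H925R3.DC.REPN := by
  intro p hp a b P X Y Z hR m
  have hpz : Prime (p : ℤ) := Nat.prime_iff_prime_int.1 hp
  by_cases hZ : (p : ℤ) ∣ Z
  · have hX : ¬ (p : ℤ) ∣ X := fun h => hpz.not_isUnit (hR.1.isUnit_of_dvd' h hZ)
    refine ⟨⟨(m, 0), by simp [monSet]⟩, ?_⟩
    have : 2 * m - 2 * m - 3 * 0 = 0 := by omega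
    simp only [mono, this, pow_zero, mul_one]
    exact fun h => hX (hpz.dvd_of_dvd_pow h)
  · refine ⟨⟨(0, 0), by simp [monSet]⟩, ?_⟩
    simp only [mono, pow_zero, mul_one, one_mul]
    exact fun h => hZ (hpz.dvd_of_dvd_pow h)

end Pool.Agent.H196R2.DC
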